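import Pool.Agent.Lib.MP_01eced_nt.P5
import Pool.Agent.Lib.MP_01eced_nt.P7
import Pool.Agent.Lib.MP_01eced_nt.P11
import Pool.Agent.Lib.MP_01eced_nt.P13
import Pool.Agent.Lib.MP_01eced_nt.P17
import Pool.Agent.Lib.MP_01eced_nt.P19
import Pool.Agent.Lib.MP_01eced_nt.P23
import Pool.Agent.Lib.MP_01eced_nt.P29
import Pool.Agent.Lib.MP_01eced_nt.P31

namespace Pool.Agent.Results.MP_01eced_nt.Classes

open Pool.Agent.Lib.MP_01eced_nt

/-- If `-(12 n + 2)` is a nonzero square modulo some prime `p` with `5 ≤ p ≤ 31`, then `n` is the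
sum of a square, a pentagonal number and a hexagonal number. -/
theorem result (n p m : ℕ) (hp : p.Prime) (h5 : 5 ≤ p) (h31 : p ≤ 31) (hm : ¬ p ∣ m)
    (h : p ∣ m ^ 2 + (12 * n + 2)) :
    ∃ x y z : ℕ, n = x ^ 2 + (3 * y ^ 2 - y) / 2 + (2 * z ^ 2 - z) := by
  have hm' : ¬ (p : ℤ) ∣ (m : ℤ) := by exact_mod_cast hm
  have h' : (p : ℤ) ∣ (m : ℤ) ^ 2 + (12 * n + 2) := by exact_mod_cast h
  have key : ¬ Bad n := by
    interval_cases p <;> first
      | (norm_num at hp; done)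
      | exact good5 n m hm' h'
      | exact good7 n m hm' h'
      | exact good11 n m hm' h'
      | exact good13 n m hm' h'
      | exact good17 n m hm' h'
      | exact good19 n m hm' h'
      | exact good23 n m hm' h'
      | exact good29 n m hm' h'
      | exact good31 n m hm' h'
  by_contra hn
  refine key fun x y z hy hz e => hn ?_
  lift y to ℕ using hy
  lift z to ℕ using hz
  refine ⟨x.natAbs, y, z, ?_⟩
  have e1 : ((x.natAbs ^ 2 : ℕ) : ℤ) = x ^ 2 := by simp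
  have e2 : ((y ^ 2 : ℕ) : ℤ) = (y : ℤ) ^ 2 := by simp
  have e3 : ((z ^ 2 : ℕ) : ℤ) = (z : ℤ) ^ 2 := by simp
  have l2 : y ≤ y ^ 2 := Nat.le_self_pow two_ne_zero y
  have l3 : z ≤ z ^ 2 := Nat.le_self_pow two_ne_zero z
  rw [← e1, ← e2, ← e3] at e
  generalize x.natAbs ^ 2 = a at *
  generalize y ^ 2 = b at *
  generalize z ^ 2 = c at *
  omega

end Pool.Agent.Results.MP_01eced_nt.Classes
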